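import Pool.Agent.Lib.MP_b5021c_nt.IfaceE6
import Pool.Agent.Lib.MP_b5021c_nt.B.H82.Jv2

/-!
# Board b5, stage 3, row E6_HVY: heavy rays, load of type B
-/

namespace Pool.Agent.B5.E.H94

open Pool.Agent.B5
open Pool.Agent.MP_b5021c_nt (Eis)
open Pool.Agent.B5.H82 (exists_pivot)

/-- Row E6_HVY. -/
theorem hvy (hCL4 : Cl4S) (hMV : MVS) : HvyS := by
  intro P L _ _ _ _ _ phi D S θ E e g hH hFP h4 hP hR hM hG hfull hg
  have hD := hFP.dd
  have htwo : 2 ≤ Module.finrank ℤ L := by omega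
  have hθ := hH.big
  have hθpos : (0 : ℝ) < θ := by linarith
  have hMQ : M (D.coeff 0) = θ := ((hMV ℤ).2 θ _ hP).2
  rw [hMQ] at hg
  obtain ⟨θ', hθ1, hθ2, hcl⟩ := hG
  obtain ⟨i0, hi0⟩ := exists_pivot hD.inj hR.2.1 (hD.bin _ hR.1)
  have hK := hfull i0 hi0
  have hKr : (Module.finrank ℤ L : ℝ) = rk (supp (cl (co phi i0) S hi0 e D)) + 1 + g := by
    exact_mod_cast hK
  have hcc : CC phi D S i0 e := ⟨hD, htwo, hR, hi0, ((hMV ℤ).2 θ' _ hcl).1⟩
  -- the drop is at most 12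
  have hg12 : (g : ℝ) ≤ 12 := by
    by_contra hcon
    push Not at hcon
    have h1 : 11 * (θ / 11) < ((g : ℝ) - 1) * M (D.coeff S) := by
      calc 11 * (θ / 11) < 11 * M (D.coeff S) := by linarith
        _ ≤ ((g : ℝ) - 1) * M (D.coeff S) := by
            apply mul_le_mul_of_nonneg_right (by linarith)
            have : 0 < θ / 11 := by positivity
            linarith
    linarith
  have hinv : 1 / θ ≤ 1 := by
    rw [div_le_one hθpos]; linarith
  have hE0 := hH.E0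
  have hC1 : (1 : ℝ) ≤ 2 * θ' + 480000 := by linarith
  obtain ⟨l, h | h⟩ := (hCL4 ℤ P L phi D S i0 e hi0 hcc).2 θ' hcl (2 * θ' + 480000) hC1
    (hH.p3 θ')
  · obtain ⟨h1, h2⟩ := h
    rw [hMQ] at h1
    rw [hKr]
    linarith
  · obtain ⟨h1, h2⟩ := h
    rw [hMQ] at h1
    have hl : (l : ℝ) ≤ 5 := by
      by_contra hcon
      push Not at hcon
      have h3 : (5 + 1) * θ' < (l : ℝ) * θ' + θ' := by
        have h4 : 0 < θ' := by linarith
        nlinarith
      linarith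
    rw [hKr]
    linarith

end Pool.Agent.B5.E.H94
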