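import Pool.Agent.Lib.MP_b5021c_nt.IfaceE5
import Pool.Agent.Lib.MP_b5021c_nt.B.H88.LPA

/-!
# Board b5, stage 3, row E5_LA5: loads of type A in class `P`
-/

namespace Pool.Agent.B5.E.H94

open Polynomial
open Pool.Agent.MP_b5021c_nt (Eis nz)
open Pool.Agent.B5.H88 (lpa_common eval_zero_s)

/-- Row E5_LA5. -/
theorem la5 (hPCZ : PCZS) : La5S := by
  intro θ q f s r T c _ hD hqf
  have hq0 := eval_zero_s hD
  have hs1 : ‖s.eval 0‖ = 1 := by rw [← hq0]; exact hD.q0
  obtain ⟨-, hVc, hVne, hcard⟩ := lpa_common hPCZ hD 1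
  have hone : q + C ((1 : Eisˣ) : Eis) * f = q + f := by
    rw [Units.val_one, C_1, one_mul]
  rw [hone] at hVc hVne hcard
  rw [Units.val_one, map_one, C_1, one_mul] at hVc
  have h0 : (q + f).coeff 0 = 0 := by rw [coeff_add, hqf]
  obtain ⟨E, hE⟩ := X_dvd_iff.mpr h0
  obtain ⟨Ec, hEc⟩ : ∃ Ec : ℂ[X], Ec = E.map Eis.emb := ⟨_, rfl⟩
  have hmap : (q + f).map Eis.emb = X * Ec := by
    rw [hE, Polynomial.map_mul, map_X, hEc]
  rw [hmap] at hVc hVne hcard
  have hEne : Ec ≠ 0 := by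
    rintro h1
    rw [h1, mul_zero] at hVne
    exact hVne rfl
  have hEz : ∀ z : ℂ, ‖z‖ < 1 → Ec.eval z ≠ 0 := by
    intro z hz h1
    rw [roots_mul hVne, roots_X, Multiset.filter_add, Multiset.card_add] at hcard
    have h2 : 0 < (Ec.roots.filter (fun x => ‖x‖ < 1)).card := by
      apply Multiset.card_pos_iff_exists_mem.mpr
      refine ⟨z, ?_⟩
      rw [Multiset.mem_filter]
      exact ⟨(mem_roots hEne).mpr h1, hz⟩
    have h3 : (({0} : Multiset ℂ).filter (fun x => ‖x‖ < 1)).card = 1 := by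
      rw [Multiset.filter_eq_self.mpr, Multiset.card_singleton]
      intro a ha
      rw [Multiset.mem_singleton] at ha
      rw [ha, norm_zero]
      exact one_pos
    omega
  have hE0 : Eis.emb (E.coeff 0) = Ec.eval 0 := by
    rw [hEc, ← coeff_zero_eq_eval_zero, coeff_map]
  have hEc0 : E.coeff 0 ≠ 0 := by
    intro h1
    have h2 := hEz 0 (by simp)
    rw [← hE0, h1, map_zero] at h2
    exact h2 rfl
  refine ⟨‖Eis.emb (E.coeff 0)‖, Eis.one_le hEc0, ?_, 0, q, E, ?_, ?_, ?_, rfl, ?_⟩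
  · -- the bound
    rw [hE0]
    have h1 := congrArg (eval 0) hVc
    simp only [eval_add, eval_mul, eval_sub, eval_one, eval_C, eval_X, zero_mul, mul_zero,
      sub_zero, one_mul] at h1
    have h2 := congrArg (fun p : ℂ[X] => (derivative p).eval 0) hVc
    simp only [derivative_add, derivative_mul, derivative_sub, derivative_one, derivative_C,
      derivative_X, eval_add, eval_mul, eval_sub, eval_one, eval_C, eval_X, zero_mul,
      mul_zero, sub_zero, one_mul, zero_add, add_zero, zero_sub, mul_one, eval_neg] at h2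
    have h3 : Ec.eval 0 * s.eval 0 = T * c * s.eval 0 ^ 2 +
        ((derivative r).eval 0 * s.eval 0 - r.eval 0 * (derivative s).eval 0) := by
      linear_combination s.eval 0 * h2 + (T * s.eval 0 - (derivative s).eval 0) * h1
    have h4 : ‖Ec.eval 0‖ * ‖s.eval 0‖ ^ 2 = ‖Ec.eval 0 * s.eval 0‖ := by
      rw [norm_mul, hs1, one_pow]
    rw [h4, h3]
    have h5 : ‖T * c * s.eval 0 ^ 2‖ = ‖c‖ * θ * ‖s.eval 0‖ ^ 2 := by
      rw [norm_mul, norm_mul, norm_pow, hD.nT, mul_comm θ]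
    rw [← h5]
    exact norm_add_le _ _
  · rw [LaurentPolynomial.T_zero, one_mul]
  · rw [hE, map_mul, toLaurent_X, zero_add]
  · exact hD.q0
  · intro z hz
    exact hEc ▸ hEz z hz

end Pool.Agent.B5.E.H94
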