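import Pool.Agent.Lib.MP_b5021c_nt.IfaceE5

/-!
# Board b5, stage 3, row E5_RT5: loads of type B and C in class `P`, exactly one zero
-/

namespace Pool.Agent.B5.E.H94

open Polynomial
open Pool.Agent.MP_b5021c_nt (Eis nz ZcoS)

theorem rt5_num {θ m C y : ℝ} {k : ℕ} (hθ : 1000000 ≤ θ) (hm : 2 ≤ m) (hC : C ≤ θ)
    (hC0 : 0 ≤ C) (hy : y = 3 / θ) (hk : k = 1 ∧ C ≤ 61 / 100 * θ ∨ k = 2) :
    y ^ k * (C + 3 * m) < m := by
  have hθ0 : 0 < θ := by linarith
  have hy0 : 0 < y := by rw [hy]; positivity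
  have hyθ : y * θ = 3 := by rw [hy]; field_simp
  have hy1 : y ≤ 3 / 1000000 := by
    rw [hy]
    exact div_le_div_of_nonneg_left (by norm_num) (by norm_num) hθ
  rcases hk with ⟨hk, hC1⟩ | hk
  · rw [hk, pow_one]
    have h1 : y * C ≤ 183 / 100 := by
      calc y * C ≤ y * (61 / 100 * θ) := mul_le_mul_of_nonneg_left hC1 hy0.le
        _ = 61 / 100 * (y * θ) := by ring
        _ = 183 / 100 := by rw [hyθ]; norm_num
    have h2 : y * m ≤ 3 / 1000000 * m := mul_le_mul_of_nonneg_right hy1 (by linarith)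
    nlinarith
  · rw [hk]
    have h1 : y * C ≤ 3 := by
      calc y * C ≤ y * θ := mul_le_mul_of_nonneg_left hC hy0.le
        _ = 3 := hyθ
    have h2 : y * m ≤ 3 / 1000000 * m := mul_le_mul_of_nonneg_right hy1 (by linarith)
    have h3 : y * (C + 3 * m) ≤ 3 + m := by nlinarith
    have h4 : y * (y * (C + 3 * m)) ≤ y * (3 + m) := mul_le_mul_of_nonneg_left h3 hy0.le
    have h5 : y * (3 + m) ≤ 3 / 1000000 * (3 + m) :=
      mul_le_mul_of_nonneg_right hy1 (by linarith)
    have h6 : y ^ 2 * (C + 3 * m) = y * (y * (C + 3 * m)) := by ring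
    rw [h6]
    linarith

/-- Row E5_RT5. -/
theorem rt5 (hZ : ZcoS) (hPCZ : PCZS) (hSWZ : SwzS) : Rt5S := by
  intro θ q f s r T c k hθ hd hk
  have hT : ‖T‖ = θ := hd.nT
  have hθ0 : 0 < θ := by linarith
  have hT0 : T ≠ 0 := by
    intro h
    rw [h, norm_zero] at hT
    linarith
  have hk0 : k ≠ 0 := by omega
  have hcθ : ‖c‖ ≤ θ := by
    have h1 := hd.cT
    have h2 : 0 < 1 / θ := by positivity
    linarith
  set qc : ℂ[X] := q.map Eis.emb with hqc
  set fc : ℂ[X] := f.map Eis.emb with hfc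
  set p : ℂ[X] := qc + X ^ k * fc with hp
  have hpmap : (q + X ^ k * f).map Eis.emb = p := by
    rw [hp, hqc, hfc, Polynomial.map_add, Polynomial.map_mul, Polynomial.map_pow, map_X]
  have hqe : ∀ z : ℂ, qc.eval z = (1 - T * z) * s.eval z := by
    intro z
    rw [hqc, hd.qs]
    simp
  have hfe : ∀ z : ℂ, fc.eval z = c * s.eval z + (1 - T * z) * r.eval z := by
    intro z
    rw [hfc, hd.fs]
    simp
  have hpe : ∀ z : ℂ, p.eval z = qc.eval z + z ^ k * fc.eval z := by
    intro z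
    rw [hp]
    simp
  have hp0 : p.eval 0 ≠ 0 := by
    rw [hpe, hqe, zero_pow hk0]
    simpa using hd.s0 0 (by simp)
  have hpne : p ≠ 0 := by
    intro h
    rw [h, eval_zero] at hp0
    exact hp0 rfl
  -- the radius
  obtain ⟨ρr, hρr⟩ : ∃ ρr : ℝ, ρr = 3 / θ := ⟨_, rfl⟩
  have hρpos : 0 < ρr := by rw [hρr]; positivity
  have hρle : ρr ≤ 3 / 1000000 := by
    rw [hρr]
    exact div_le_div_of_nonneg_left (by norm_num) (by norm_num) hθ
  have hρθ : θ * ρr = 3 := by rw [hρr]; field_simp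
  have hρn : ‖(ρr : ℂ)‖ = ρr := by
    rw [Complex.norm_real, Real.norm_eq_abs, abs_of_pos hρpos]
  have hρc : (ρr : ℂ) ≠ 0 := by
    intro h
    rw [h, norm_zero] at hρn
    linarith
  -- a zero in the disc of radius `3/θ`
  obtain ⟨x, hx12, hxr⟩ : ∃ x : ℂ, ‖x‖ < ρr ∧ p.eval x = 0 := by
    set ρ : ℂ[X] := C (ρr : ℂ) * X with hρ
    have hρe : ∀ z : ℂ, ρ.eval z = ρr * z := by
      intro z
      rw [hρ]
      simp
    set A : ℂ[X] := qc.comp ρ with hA
    set B : ℂ[X] := (X ^ k * fc).comp ρ with hB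
    have hAe : ∀ z : ℂ, A.eval z = qc.eval (ρr * z) := by
      intro z
      rw [hA, eval_comp, hρe]
    have hBe : ∀ z : ℂ, B.eval z = (ρr * z) ^ k * fc.eval (ρr * z) := by
      intro z
      rw [hB, eval_comp, hρe]
      simp
    have hlt : ∀ z : ℂ, ‖z‖ = 1 → ‖B.eval z‖ < ‖A.eval z‖ := by
      intro z hz
      rw [hAe, hBe, hqe, hfe]
      obtain ⟨y, hy⟩ : ∃ y : ℂ, y = ρr * z := ⟨_, rfl⟩
      rw [← hy]
      have hyn : ‖y‖ = ρr := by
        rw [hy, norm_mul, hz, mul_one, hρn]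
      have hy1 : ‖y‖ ≤ 1 := by rw [hyn]; linarith
      have hs : s.eval y ≠ 0 := hd.s0 y hy1
      have hsp : 0 < ‖s.eval y‖ := norm_pos_iff.2 hs
      have hr : ‖r.eval y‖ ≤ 3 * ‖s.eval y‖ := hd.r3 y hy1
      have h1 : 2 ≤ ‖1 - T * y‖ := by
        have h2 : ‖T * y‖ ≤ ‖1 - T * y‖ + 1 := by
          have h3 := norm_sub_le (1 : ℂ) (1 - T * y)
          rw [sub_sub_cancel, norm_one] at h3
          linarith
        rw [norm_mul, hT, hyn, hρθ] at h2
        linarith
      have h2 : ‖c * s.eval y + (1 - T * y) * r.eval y‖ ≤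
          (‖c‖ + 3 * ‖1 - T * y‖) * ‖s.eval y‖ := by
        refine (norm_add_le _ _).trans ?_
        rw [norm_mul, norm_mul]
        nlinarith [norm_nonneg (1 - T * y), norm_nonneg (r.eval y)]
      have h3 := rt5_num (θ := θ) (m := ‖1 - T * y‖) (C := ‖c‖) (y := ρr) (k := k) hθ h1 hcθ
        (norm_nonneg _) hρr hk
      rw [norm_mul, norm_mul, norm_pow, hyn]
      calc ρr ^ k * ‖c * s.eval y + (1 - T * y) * r.eval y‖
          ≤ ρr ^ k * ((‖c‖ + 3 * ‖1 - T * y‖) * ‖s.eval y‖) :=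
            mul_le_mul_of_nonneg_left h2 (pow_nonneg hρpos.le _)
        _ = (ρr ^ k * (‖c‖ + 3 * ‖1 - T * y‖)) * ‖s.eval y‖ := by ring
        _ < ‖1 - T * y‖ * ‖s.eval y‖ := mul_lt_mul_of_pos_right h3 hsp
    have hcount := hZ (fun t => A + C (t : ℂ) * B) (max A.natDegree B.natDegree) ?_ ?_ ?_
    · have h0 : nz ((fun t : ℝ => A + C (t : ℂ) * B) 0) = nz A := by
        simp
      have h1 : nz ((fun t : ℝ => A + C (t : ℂ) * B) 1) = nz (p.comp ρ) := by
        have : (fun t : ℝ => A + C (t : ℂ) * B) 1 = p.comp ρ := by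
          simp only [Complex.ofReal_one, map_one, one_mul]
          rw [hp, add_comp, hA, hB]
        rw [this]
      rw [h0, h1] at hcount
      have hAne : A ≠ 0 := by
        intro h
        have h2 := hlt 1 norm_one
        rw [h, eval_zero, norm_zero] at h2
        exact absurd h2 (not_lt.2 (norm_nonneg _))
      have hA1 : 1 ≤ nz A := by
        unfold nz
        rw [Nat.one_le_iff_ne_zero, Ne, Multiset.card_eq_zero]
        intro h
        have h3 : (((ρr : ℂ) * T)⁻¹ : ℂ) ∈ A.roots.filter (fun z => ‖z‖ < 1) := by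
          rw [Multiset.mem_filter, mem_roots hAne, IsRoot.def, hAe, hqe]
          constructor
          · have : (1 : ℂ) - T * (ρr * ((ρr : ℂ) * T)⁻¹) = 0 := by
              field_simp
              ring
            rw [this, zero_mul]
          · rw [norm_inv, norm_mul, hT, hρn, mul_comm, hρθ]
            norm_num
        rw [h] at h3
        exact absurd h3 (Multiset.notMem_zero _)
      rw [hcount] at hA1
      have hne : (p.comp ρ).roots.filter (fun z => ‖z‖ < 1) ≠ 0 := by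
        intro h
        unfold nz at hA1
        rw [h, Multiset.card_zero] at hA1
        omega
      obtain ⟨y, hy⟩ := Multiset.exists_mem_of_ne_zero hne
      rw [Multiset.mem_filter, mem_roots', IsRoot.def, eval_comp, hρe] at hy
      refine ⟨ρr * y, ?_, hy.1.2⟩
      rw [norm_mul, hρn]
      have h4 := mul_lt_mul_of_pos_left hy.2 hρpos
      rwa [mul_one] at h4
    · intro t ht
      refine (natDegree_add_le _ _).trans (max_le_max le_rfl ?_)
      exact natDegree_C_mul_le _ _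
    · intro i
      simp only [coeff_add, coeff_C_mul]
      fun_prop
    · intro t ht z hz h0
      simp only [eval_add, eval_mul, eval_C] at h0
      have h1 := hlt z hz
      have h2 : A.eval z = -((t : ℂ) * B.eval z) := by linear_combination h0
      rw [h2, norm_neg, norm_mul, Complex.norm_real, Real.norm_eq_abs, abs_of_nonneg ht.1] at h1
      nlinarith [norm_nonneg (B.eval z), ht.2]
  have hx0 : x ≠ 0 := by
    intro h
    rw [h] at hxr
    exact hp0 hxr
  have hxpos : 0 < ‖x‖ := norm_pos_iff.2 hx0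
  have hx1 : ‖x‖ < 1 := by linarith
  have hroots : p.roots.filter (fun x => ‖x‖ < 1) = {x} := by
    have hmem : x ∈ p.roots.filter (fun x => ‖x‖ < 1) := by
      rw [Multiset.mem_filter, mem_roots hpne, IsRoot.def]
      exact ⟨hxr, hx1⟩
    have hcard : (p.roots.filter (fun x => ‖x‖ < 1)).card = 1 := by
      have h1 : 0 < (p.roots.filter (fun x => ‖x‖ < 1)).card :=
        Multiset.card_pos_iff_exists_mem.2 ⟨x, hmem⟩
      have h2 : (p.roots.filter (fun x => ‖x‖ < 1)).card ≤ 1 := by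
        rw [hp]
        refine hPCZ T⁻¹ qc (X ^ k * fc) hd.root hd.nz ?_ (by rw [← hp]; exact hpne)
        intro z hz
        rw [eval_mul, eval_pow, eval_X, norm_mul, norm_pow, hz, one_pow, one_mul]
        exact hd.le z hz
      omega
    obtain ⟨y, hy⟩ := Multiset.card_eq_one.1 hcard
    rw [hy] at hmem
    rw [hy, Multiset.mem_singleton.1 hmem]
  have hs : s.eval x ≠ 0 := hd.s0 x hx1.le
  have hr : ‖r.eval x‖ ≤ 3 * ‖s.eval x‖ := hd.r3 x hx1.le
  have hTx : θ / 3 ≤ ‖x⁻¹‖ := by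
    rw [norm_inv]
    have h2 : ρr⁻¹ ≤ ‖x‖⁻¹ := inv_anti₀ hxpos hx12.le
    rw [hρr, inv_div] at h2
    exact h2
  refine ⟨x⁻¹, r.eval x / s.eval x, hTx, ?_, ?_, ?_, ?_⟩
  · rw [norm_div, div_le_iff₀ (norm_pos_iff.2 hs)]
    exact hr
  · rw [norm_inv, div_inv_eq_mul]
    exact hSWZ r s hd.s0 hd.r3 x hx1
  · obtain ⟨h, hh⟩ : ∃ h : ℂ, h = r.eval x / s.eval x := ⟨_, rfl⟩
    rw [← hh]
    have hrs : r.eval x = h * s.eval x := by rw [hh]; field_simp
    have hE : (1 - T * x) + x ^ k * (c + (1 - T * x) * h) = 0 := by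
      have h5 : ((1 - T * x) + x ^ k * (c + (1 - T * x) * h)) * s.eval x = 0 := by
        rw [hpe, hqe, hfe, hrs] at hxr
        linear_combination hxr
      exact (mul_eq_zero.mp h5).resolve_right hs
    have hub : x * x⁻¹ = 1 := mul_inv_cancel₀ hx0
    have hubk : x ^ k * x⁻¹ ^ k = 1 := by rw [← mul_pow, hub, one_pow]
    linear_combination (-(x⁻¹) ^ (k + 1)) * hE + (-(T * x⁻¹ ^ k + T * h)) * hub +
      x⁻¹ * (c + (1 - T * x) * h) * hubk
  · have hT1 : 1 < ‖x⁻¹‖ := by linarith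
    refine ⟨hT1, 0, q + X ^ k * f, ?_, ?_, x, ?_, ?_⟩
    · rw [LaurentPolynomial.T_zero, one_mul]
    · have h1 : (q + X ^ k * f).coeff 0 = q.coeff 0 := by
        rw [coeff_add, mul_coeff_zero, coeff_X_pow, if_neg (Ne.symm hk0), zero_mul, add_zero]
      rw [h1]
      exact hd.q0
    · rw [norm_inv, inv_inv]
    · exact hpmap ▸ hroots

end Pool.Agent.B5.E.H94
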